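import Pool.Agent.K1H98.NF.Stm

/-!
# An algebraic integer with all conjugates less than `1` is zero; the norm divided by an integer
-/

set_option autoImplicit false

namespace Pool.Agent.K1H90.NF

open Module Pool.Agent.K1H98.NF

theorem norm_abs {F : Type} [Field F] [NumberField F] (x : F) (hx : IsIntegral ℤ x) :
    ∃ n : ℤ, (n : ℚ) = Algebra.norm ℚ x ∧ |(n : ℝ)| = ∏ σ : F →ₐ[ℚ] ℂ, ‖σ x‖ := by
  obtain ⟨n, hn⟩ := IsIntegrallyClosed.isIntegral_iff.1 (Algebra.isIntegral_norm ℚ hx)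
  have hn' : (n : ℚ) = Algebra.norm ℚ x := by simpa using hn
  refine ⟨n, hn', ?_⟩
  have h := Algebra.norm_eq_prod_embeddings ℚ ℂ x
  rw [← hn'] at h
  rw [← norm_prod, ← h]
  simp

theorem t_ZERO : S_ZERO := by
  intro F _ _ x hx hs
  by_contra h0
  obtain ⟨n, hn, hn2⟩ := norm_abs x hx
  have hne : (Finset.univ : Finset (F →ₐ[ℚ] ℂ)).Nonempty := by
    rw [← Finset.card_pos, Finset.card_univ, AlgHom.card ℚ F ℂ]
    exact finrank_pos
  have h1 : ∏ σ : F →ₐ[ℚ] ℂ, ‖σ x‖ < ∏ σ : F →ₐ[ℚ] ℂ, (1 : ℝ) := by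
    refine Finset.prod_lt_prod_of_nonempty (fun σ _ => ?_) (fun σ _ => ?_) hne
    · exact norm_pos_iff.2 ((map_ne_zero σ).2 h0)
    · exact hs σ.toRingHom
  rw [← hn2, Finset.prod_const_one] at h1
  have h2 : n = 0 := by
    have h3 : |n| < 1 := by exact_mod_cast h1
    exact Int.abs_lt_one_iff.1 h3
  rw [h2] at hn
  have h3 : Algebra.norm ℚ x = 0 := by rw [← hn]; simp
  exact h0 (Algebra.norm_eq_zero_iff.1 h3)

theorem t_INV : S_INV := by
  intro F _ _ d hd H hH x hx0 hx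
  classical
  obtain ⟨hint, hsm⟩ := hx
  obtain ⟨n, hn, hn2⟩ := norm_abs x hint
  have hcard : Fintype.card (F →ₐ[ℚ] ℂ) ≤ d := by
    rw [AlgHom.card ℚ F ℂ]; exact hd
  -- the divisibility
  let y : NumberField.RingOfIntegers F := ⟨x, hint⟩
  have hyn : (Algebra.norm ℤ y : ℚ) = n := by
    rw [Algebra.coe_norm_int, hn]
    rfl
  have hyn' : Algebra.norm ℤ y = n := by exact_mod_cast hyn
  have hmem : ((Ideal.absNorm (Ideal.span {y}) : ℕ) : NumberField.RingOfIntegers F) ∈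
      Ideal.span {y} := Ideal.absNorm_mem _
  rw [Ideal.absNorm_span_singleton, hyn'] at hmem
  obtain ⟨z, hz⟩ := Ideal.mem_span_singleton.1 hmem
  have hn0 : n ≠ 0 := by
    intro h
    rw [h] at hn
    exact hx0 (Algebra.norm_eq_zero_iff.1 (by rw [← hn]; simp))
  have hzx : (z : F) * x = ((n.natAbs : ℤ) : F) := by
    have h1 := congrArg (fun t : NumberField.RingOfIntegers F => (t : F)) hz
    simp only [map_mul, map_natCast] at h1
    rw [mul_comm, Int.cast_natCast, h1]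
    rfl
  have habs : |(((n.natAbs : ℤ)) : ℝ)| = ∏ σ : F →ₐ[ℚ] ℂ, ‖σ x‖ := by
    rw [← hn2]
    push_cast
    rw [abs_abs]
  refine ⟨(z : F), (n.natAbs : ℤ), by simpa using hn0, hzx, ?_, z.2, ?_⟩
  · rw [habs]
    calc ∏ σ : F →ₐ[ℚ] ℂ, ‖σ x‖ ≤ ∏ σ : F →ₐ[ℚ] ℂ, H :=
          Finset.prod_le_prod (fun σ _ => norm_nonneg _) (fun σ _ => hsm σ.toRingHom)
      _ = H ^ Fintype.card (F →ₐ[ℚ] ℂ) := by rw [Finset.prod_const, Finset.card_univ]
      _ ≤ H ^ d := pow_le_pow_right₀ hH hcard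
  · intro σ
    have hσ : σ x ≠ 0 := (map_ne_zero σ).2 hx0
    let σ' : F →ₐ[ℚ] ℂ := σ.toRatAlgHom
    have hσ' : σ' x = σ x := rfl
    have h1 : ‖σ (z : F)‖ * ‖σ x‖ = ∏ τ : F →ₐ[ℚ] ℂ, ‖τ x‖ := by
      rw [← norm_mul, ← map_mul, hzx, ← habs]
      simp
    rw [← Finset.mul_prod_erase Finset.univ (fun τ : F →ₐ[ℚ] ℂ => ‖τ x‖) (Finset.mem_univ σ'),
      hσ', mul_comm] at h1
    have h2 := mul_left_cancel₀ (norm_ne_zero_iff.2 hσ) h1
    rw [h2]
    calc ∏ τ ∈ Finset.univ.erase σ', ‖τ x‖ ≤ ∏ τ ∈ Finset.univ.erase σ', H :=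
          Finset.prod_le_prod (fun σ _ => norm_nonneg _) (fun σ _ => hsm σ.toRingHom)
      _ = H ^ (Finset.univ.erase σ').card := by rw [Finset.prod_const]
      _ ≤ H ^ d := pow_le_pow_right₀ hH ((Finset.card_le_univ _).trans hcard)

end Pool.Agent.K1H90.NF
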